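import Mathlib

set_option autoImplicit false

namespace Pool.Agent.Results.MP_940262_co.Counter

/-- Every vertex is at distance at most `k` from a vertex of `D`. -/
def KDom {V : Type} (G : SimpleGraph V) (k : ℕ) (D : Set V) : Prop :=
  ∀ v, ∃ u ∈ D, G.edist u v ≤ k

/-- The `k`-domination number. -/
noncomputable def gammaK {V : Type} (G : SimpleGraph V) (k : ℕ) : ℕ :=
  sInf {m | ∃ D : Set V, D.ncard = m ∧ KDom G k D}

/-- The `k`-degree of a vertex. -/
noncomputable def kDeg {V : Type} (G : SimpleGraph V) (k : ℕ) (v : V) : ℕ :=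
  {u | u ≠ v ∧ G.edist u v ≤ k}.ncard

/-- The minimum `k`-degree. -/
noncomputable def deltaK {V : Type} (G : SimpleGraph V) (k : ℕ) : ℕ :=
  sInf {m | ∃ v, kDeg G k v = m}

/-- `gammaK G k = l` and deleting any vertex lowers the `k`-domination number. -/
def Critical {V : Type} (G : SimpleGraph V) (k l : ℕ) : Prop :=
  gammaK G k = l ∧ ∀ v, gammaK (G.induce {u | u ≠ v}) k < gammaK G k

theorem le_two {V : Type} (G : SimpleGraph V) (u v : V) :
    G.edist u v ≤ (2 : ℕ) ↔ u = v ∨ G.Adj u v ∨ ∃ w, G.Adj u w ∧ G.Adj v w := by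
  rw [← not_lt, Nat.cast_ofNat, SimpleGraph.two_lt_edist_iff, ← Set.not_nonempty_iff_eq_empty]
  have : (G.commonNeighbors u v).Nonempty ↔ ∃ w, G.Adj u w ∧ G.Adj v w := Iff.rfl
  rw [this, not_and_or, not_and_or, not_not, not_not, not_not]

/-- The Moebius ladder on 16 vertices. -/
def G : SimpleGraph (Fin 16) where
  Adj u v := u + 1 = v ∨ v + 1 = u ∨ u + 8 = v
  symm := ⟨by decide⟩
  loopless := ⟨by decide⟩

instance : DecidableRel G.Adj := fun u v =>
  inferInstanceAs (Decidable (u + 1 = v ∨ v + 1 = u ∨ u + 8 = v))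

def R (u v : Fin 16) : Prop := u = v ∨ G.Adj u v ∨ ∃ w, G.Adj u w ∧ G.Adj v w

instance : DecidableRel R := fun u v =>
  inferInstanceAs (Decidable (u = v ∨ G.Adj u v ∨ ∃ w, G.Adj u w ∧ G.Adj v w))

theorem conn : G.Connected := by
  have h : ∀ v : Fin 16, G.Reachable 0 v := by
    intro v
    induction v using Fin.induction with
    | zero => rfl
    | succ i ih =>
      refine ih.trans (SimpleGraph.Adj.reachable ?_)
      revert i
      decide
  exact ⟨fun u v => (h u).symm.trans (h v)⟩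

theorem gam : gammaK G 2 = 3 := by
  have h3 : 3 ∈ {m | ∃ D : Set (Fin 16), D.ncard = m ∧ KDom G 2 D} := by
    refine ⟨↑({0, 3, 6} : Finset (Fin 16)), by rw [Set.ncard_coe_finset]; decide, ?_⟩
    intro v
    have : ∀ v : Fin 16, ∃ u ∈ ({0, 3, 6} : Finset (Fin 16)), R u v := by decide +kernel
    obtain ⟨u, hu, h⟩ := this v
    exact ⟨u, hu, (le_two G u v).2 h⟩
  refine le_antisymm (Nat.sInf_le h3) ?_
  obtain ⟨D, hD, hdom⟩ := Nat.sInf_mem ⟨3, h3⟩
  by_contra hlt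
  have hle : D.ncard ≤ 2 := by
    have : gammaK G 2 = D.ncard := hD.symm
    omega
  have key : ∀ a b : Fin 16, ∃ v, ¬ R a v ∧ ¬ R b v := by decide +kernel
  have hsub : ∃ a b : Fin 16, D ⊆ {a, b} := by
    rcases Nat.lt_or_ge D.ncard 2 with h | h
    · rcases (Set.ncard_le_one_iff_eq (Set.toFinite D)).1 (by omega) with h | ⟨a, h⟩
      · exact ⟨0, 0, by simp [h]⟩
      · exact ⟨a, a, by simp [h]⟩
    · obtain ⟨a, b, _, h⟩ := Set.ncard_eq_two.1 (le_antisymm hle h)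
      exact ⟨a, b, h.le⟩
  obtain ⟨a, b, hab⟩ := hsub
  obtain ⟨v, ha, hb⟩ := key a b
  obtain ⟨u, hu, h⟩ := hdom v
  rcases hab hu with rfl | rfl
  · exact ha ((le_two G _ v).1 h)
  · exact hb ((le_two G _ v).1 h)

theorem del (x : Fin 16) : gammaK (G.induce {u | u ≠ x}) 2 ≤ 2 := by
  have key : ∀ x : Fin 16, ∃ a b : Fin 16, a ≠ x ∧ b ≠ x ∧ a ≠ b ∧ ∀ v, v ≠ x →
      ∃ u, (u = a ∨ u = b) ∧
        (u = v ∨ G.Adj u v ∨ ∃ w, w ≠ x ∧ G.Adj u w ∧ G.Adj v w) := by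
    intro x
    refine ⟨x + 6, x + 10, ?_⟩
    revert x
    decide +kernel
  obtain ⟨a, b, ha, hb, hab, h⟩ := key x
  refine Nat.sInf_le ⟨{⟨a, ha⟩, ⟨b, hb⟩}, Set.ncard_pair (fun h => hab (Subtype.ext_iff.1 h)), ?_⟩
  rintro ⟨v, hv⟩
  obtain ⟨u, hu, h⟩ := h v hv
  have hux : u ≠ x := by rcases hu with rfl | rfl <;> assumption
  refine ⟨⟨u, hux⟩, ?_, (le_two _ _ _).2 ?_⟩
  · rcases hu with rfl | rfl
    · exact Or.inl rfl
    · exact Or.inr rfl
  · rcases h with h | h | ⟨w, hw, h1, h2⟩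
    · exact Or.inl (Subtype.ext h)
    · exact Or.inr (Or.inl h)
    · exact Or.inr (Or.inr ⟨⟨w, hw⟩, h1, h2⟩)

theorem kdeg (v : Fin 16) : kDeg G 2 v = 7 := by
  have : {u | u ≠ v ∧ G.edist u v ≤ (2 : ℕ)} = ↑(Finset.univ.filter (fun u => u ≠ v ∧ R u v)) := by
    ext u
    simp only [Set.mem_ofPred_eq, Finset.coe_filter, Finset.mem_univ, true_and, le_two]
    rfl
  unfold kDeg
  rw [this, Set.ncard_coe_finset]
  clear this
  revert v
  decide +kernel

theorem delta : deltaK G 2 = 7 := by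
  obtain ⟨v, hv⟩ := Nat.sInf_mem (s := {m | ∃ v, kDeg G 2 v = m}) ⟨7, 0, kdeg 0⟩
  exact hv.symm.trans (kdeg v)

theorem result : ¬ ∀ (k l n : ℕ) (G : SimpleGraph (Fin n)), 2 ≤ k → 3 ≤ l → G.Connected →
    Critical G k l → (deltaK G k + 1) * (gammaK G k - 1) + 1 ≤ n := by
  intro h
  have := h 2 3 16 G le_rfl le_rfl conn ⟨gam, fun v => by rw [gam]; have := del v; omega⟩
  rw [gam, delta] at this
  omega

end Pool.Agent.Results.MP_940262_co.Counter
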